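import Mathlib
import Pool.Agent.Helper425.LA.Main
import Pool.Agent.Helper425.LA.Lots

set_option autoImplicit false

open Set Topology

namespace Pool.Agent.Results.MP_28859b_gt.LuzinYes

/-- (1) If `2 ^ ℵ₀ < 2 ^ ℵ₁` (Luzin's Axiom), then for every Frechet-Urysohn, and even for every
sequential, compact space `K`, of any cardinality, every compact continuous image of `C_p(K)` is
metrizable.
(2) In ZFC: for every compact space `K` such that `C_p(K)` has fewer than `2 ^ ℵ₁` restrictions to
every set `A ⊆ K` of size at most `ℵ₁`, every compact continuous image of `C_p(K)` is metrizable;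
this applies if `|closure A| ^ ℵ₀ < 2 ^ ℵ₁` for all such `A` (with `𝔠 < 2 ^ ℵ₁`). -/
theorem result :
    (Cardinal.continuum.{0} < 2 ^ Cardinal.aleph.{0} 1 →
      ∀ (K : Type) [TopologicalSpace K] [CompactSpace K] [T2Space K],
      (FrechetUrysohnSpace K ∨ SequentialSpace K) →
      ∀ (Y : Type) [TopologicalSpace Y] [CompactSpace Y] [T2Space Y]
        (f : {g : K → ℝ // Continuous g} → Y),
        Continuous f → Function.Surjective f → TopologicalSpace.MetrizableSpace Y) ∧
    (∀ (K : Type) [TopologicalSpace K] [CompactSpace K] [T2Space K],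
      (∀ A : Set K, Cardinal.mk A ≤ Cardinal.aleph 1 →
        Cardinal.mk (Set.range (fun g : {g : K → ℝ // Continuous g} => A.restrict g.1)) <
          2 ^ Cardinal.aleph.{0} 1) →
      ∀ (Y : Type) [TopologicalSpace Y] [CompactSpace Y] [T2Space Y]
        (f : {g : K → ℝ // Continuous g} → Y),
        Continuous f → Function.Surjective f → TopologicalSpace.MetrizableSpace Y) ∧
    (∀ (K : Type) [TopologicalSpace K] [CompactSpace K] [T2Space K],
      (∀ A : Set K, Cardinal.mk A ≤ Cardinal.aleph 1 → ∃ κ : Cardinal.{0},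
        Cardinal.continuum ≤ κ ∧ Cardinal.mk (closure A) ≤ κ ∧
          κ ^ Cardinal.aleph0.{0} < 2 ^ Cardinal.aleph.{0} 1) →
      ∀ (Y : Type) [TopologicalSpace Y] [CompactSpace Y] [T2Space Y]
        (f : {g : K → ℝ // Continuous g} → Y),
        Continuous f → Function.Surjective f → TopologicalSpace.MetrizableSpace Y) := by
  refine ⟨fun hL K _ _ _ hK Y _ _ _ f hf hs => ?_,
    fun K _ _ _ hK Y _ _ _ f hf hs => Pool.Agent.Helper425.LA.main_card K hK Y f hf hs,
    fun K _ _ _ hK Y _ _ _ f hf hs => Pool.Agent.Helper425.LA.main_pow K hK Y f hf hs⟩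
  have hseq : SequentialSpace K := by
    rcases hK with h | h
    · infer_instance
    · exact h
  exact Pool.Agent.Helper425.LA.main_seq (by rwa [Cardinal.two_power_aleph0]) K Y f hf hs

end Pool.Agent.Results.MP_28859b_gt.LuzinYes
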